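import Pool.Agent.Helper66.NE.P6
import Pool.Agent.Helper96.NE.Two
import Pool.Agent.Helper1.NE.Long

/-!
# The number of instances of one type, and of all types
-/

namespace Pool.Agent.Helper66.NE

open Pool.Agent.Helper74.NW Pool.Agent.Helper74.NE Pool.Agent.Helper19.NF
open Pool.Agent.Helper74.NS (Expands)

variable {n d m : ℕ} {B : Type} [AddCommGroup B] [NeZero m] {S K : ℕ}

theorem nonneg_of_DP {B ι : Type} [AddCommGroup B] [Finite B] [Finite ι] {T : ℕ} {δ : ℝ} (hδ : DP B ι T δ) :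
    0 ≤ δ := by
  have h1 := hδ 0 (fun _ => ∅) (fun _ => ∅)
  have h2 : (0 : ℝ) < Nat.card ((ι → B) × (ι → B)) := by exact_mod_cast Nat.card_pos
  have h3 : (0 : ℝ) ≤ δ * Nat.card ((ι → B) × (ι → B)) := le_trans (Nat.cast_nonneg _) h1
  by_contra hneg
  push Not at hneg
  have h4 := mul_neg_of_neg_of_pos hneg h2
  linarith

/-- E6a: the number of instances of one type. -/
theorem type_bound [Fintype B] (P : NProg B (Fin d × Fin m → B) B S) (e : B → Fin K)
    (he : Function.Injective e) (g : Fin d → Equiv.Perm (Fin n)) (x0 : Fin n × Fin m → B)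
    {T i a : ℕ} {δ : ℝ} (hδ : DP B (Fin a × Fin m) T δ) (u : Fin a → Fin n) (hu : StrictMono u)
    (r r' : Fin a → Fin d × Fin m) (s p t : Fin S) :
    (Nat.card {I : B → Fin d × Fin m → B // InX P e g x0 T i u r r' s p t I} : ℝ) ≤
      δ * Nat.card (B → Fin d × Fin m → B) :=
  type_bound_of P e g x0 (nonneg_of_DP hδ) u r r' s p t fun I hI =>
    Pool.Agent.Helper96.NE.class_bound P e he g x0 hδ u hu r r' s p t I hI

/-- E6b: all types. -/
theorem good_bound [Fintype B] (P : NProg B (Fin d × Fin m → B) B S) (e : B → Fin K)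
    (he : Function.Injective e) (g : Fin d → Equiv.Perm (Fin n)) (x0 : Fin n × Fin m → B)
    {R T a : ℕ} {δ : ℝ} (hδ : DP B (Fin a × Fin m) T δ) (ha : 1 ≤ a) (hE : Expands g a) :
    (Nat.card {I : B → Fin d × Fin m → B // CF (fine g) x0 R I ∧ ∃ l t, Best P e I P.start l t ∧
        Nat.card {c // c ∈ l} ≤ T ∧ 4 * a ≤ (full g x0 I R l).card ∧ l.length ≤ 2 ^ R} : ℝ) ≤
      R * n.choose a * ((d * m) ^ a) ^ 2 * (S : ℝ) ^ 3 * δ * Nat.card (B → Fin d × Fin m → B) :=
  good_bound_of P e g x0 (nonneg_of_DP hδ)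
    (fun _ hI l hl hh => Pool.Agent.Helper1.NE.long ha hE hI l hl hh)
    fun _ _ u hu r r' s p t I hI => Pool.Agent.Helper96.NE.class_bound P e he g x0 hδ u hu r r' s p t I hI

end Pool.Agent.Helper66.NE
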