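import Pool.Agent.Helper74.NE.Defs

/-!
# The number of instances of one type, and of all types
-/

namespace Pool.Agent.Helper66.NE

open Pool.Agent.Helper74.NW Pool.Agent.Helper74.NE Pool.Agent.Helper19.NF
open Pool.Agent.Helper74.NS (Expands)

/-- A window consisting of two windows. -/
theorem best_split {C W Z : Type} {S K : ℕ} {P : NProg C W Z S} {e : C → Fin K} {I : C → W} {s t : Fin S}
    {a b : List C} (h : Best P e I s (a ++ b) t) : ∃ r, Best P e I s a r ∧ Best P e I r b t := by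
  obtain ⟨r, h1, h2⟩ := run_split _ h.run
  refine ⟨r, ⟨h1, fun w' hw' => ?_, fun w' hw' hl => ?_⟩, ⟨h2, fun w' hw' => ?_, fun w' hw' hl => ?_⟩⟩
  · have h5 := h.len _ (run_append hw' h2)
    simp only [List.length_append] at h5
    omega
  · have h5 := h.num _ (run_append hw' h2) (by simp only [List.length_append]; omega)
    rw [num_append, num_append] at h5
    have h6 := Nat.add_le_add_iff_right.mp h5
    rcases Nat.eq_zero_or_pos (K ^ b.length) with h7 | h7
    · have h8 : K = 0 := by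
        by_contra h9
        exact (pow_ne_zero _ h9) h7
      subst h8
      have h9 : a = [] := by
        cases a with
        | nil => rfl
        | cons c a => exact (e c).elim0
      rw [h9]
      exact Nat.zero_le _
    · exact Nat.le_of_mul_le_mul_right h6 h7
  · have h5 := h.len _ (run_append h1 hw')
    simp only [List.length_append] at h5
    omega
  · have h5 := h.num _ (run_append h1 hw') (by simp only [List.length_append]; omega)
    rw [num_append, num_append, hl] at h5
    omega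

variable {n d m : ℕ} {B : Type} [AddCommGroup B] [NeZero m] {S K : ℕ}

section chg

variable {a : ℕ} {g : Fin d → Equiv.Perm (Fin n)} {x0 : Fin n × Fin m → B} {i : ℕ} {u : Fin a → Fin n}
  {r r' : Fin a → Fin d × Fin m} {I : B → Fin d × Fin m → B}

theorem chg_ne {y : Fin a × Fin m → B} (b : B) (hb : chg g x0 i u r y I b ≠ 0) :
    ∃ v, b = val (fine g) x0 I i v := by
  classical
  by_contra hcon
  apply hb
  funext c
  unfold chg
  refine Finset.sum_eq_zero fun j _ => Finset.sum_eq_zero fun t _ => ?_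
  rw [if_neg]
  rintro ⟨h1, -⟩
  exact hcon ⟨_, h1⟩

/-- Both changes. -/
noncomputable def ch2 (g : Fin d → Equiv.Perm (Fin n)) (x0 : Fin n × Fin m → B) (i : ℕ) (u : Fin a → Fin n)
    (r r' : Fin a → Fin d × Fin m) (y : (Fin a × Fin m → B) × (Fin a × Fin m → B))
    (I : B → Fin d × Fin m → B) : B → Fin d × Fin m → B :=
  chg g x0 i u r y.1 I + chg g x0 i u r' y.2 I

theorem ch2_ne {y : (Fin a × Fin m → B) × (Fin a × Fin m → B)} (b : B) (hb : ch2 g x0 i u r r' y I b ≠ 0) :
    ∃ v, b = val (fine g) x0 I i v := by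
  by_cases h : chg g x0 i u r y.1 I b = 0
  · refine chg_ne (u := u) (r := r') (y := y.2) b fun h' => hb ?_
    show chg g x0 i u r y.1 I b + chg g x0 i u r' y.2 I b = 0
    rw [h, h', add_zero]
  · exact chg_ne b h

theorem hole_add (hI : CF (fine g) x0 i I) (y : (Fin a × Fin m → B) × (Fin a × Fin m → B))
    (r'' : Fin a → Fin d × Fin m) (j : Fin a) :
    hole g x0 i u r'' (I + ch2 g x0 i u r r' y I) j = hole g x0 i u r'' I j := by
  unfold hole
  rw [val_add hI _ ch2_ne i le_rfl]

theorem chg_add_inst (hI : CF (fine g) x0 i I) (y : (Fin a × Fin m → B) × (Fin a × Fin m → B))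
    (r'' : Fin a → Fin d × Fin m) (z : Fin a × Fin m → B) :
    chg g x0 i u r'' z (I + ch2 g x0 i u r r' y I) = chg g x0 i u r'' z I := by
  classical
  have h1 : ∀ j, hole g x0 i u r'' (I + ch2 g x0 i u r r' y I) j = hole g x0 i u r'' I j := hole_add hI y r''
  funext b c
  show (∑ j, ∑ t, if b = hole g x0 i u r'' (I + ch2 g x0 i u r r' y I) j ∧ c = ((r'' j).1, (r'' j).2 - t)
    then z (j, t) else 0) = ∑ j, ∑ t, if b = hole g x0 i u r'' I j ∧ c = ((r'' j).1, (r'' j).2 - t)
    then z (j, t) else 0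
  simp only [h1]

theorem chg_neg (y : Fin a × Fin m → B) : chg g x0 i u r (-y) I = -chg g x0 i u r y I := by
  classical
  funext b c
  rw [Pi.neg_apply, Pi.neg_apply]
  unfold chg
  rw [← Finset.sum_neg_distrib]
  refine Finset.sum_congr rfl fun j _ => ?_
  rw [← Finset.sum_neg_distrib]
  refine Finset.sum_congr rfl fun t _ => ?_
  split_ifs
  · rfl
  · rw [neg_zero]

/-- The changes are invertible. -/
theorem shift_shift_neg (hI : CF (fine g) x0 i I) (y : (Fin a × Fin m → B) × (Fin a × Fin m → B)) :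
    I + ch2 g x0 i u r r' y I + ch2 g x0 i u r r' (-y) (I + ch2 g x0 i u r r' y I) = I := by
  have h1 : ch2 g x0 i u r r' (-y) (I + ch2 g x0 i u r r' y I) = -ch2 g x0 i u r r' y I := by
    show chg g x0 i u r (-y.1) (I + ch2 g x0 i u r r' y I) +
      chg g x0 i u r' (-y.2) (I + ch2 g x0 i u r r' y I) = -(chg g x0 i u r y.1 I + chg g x0 i u r' y.2 I)
    rw [chg_add_inst hI, chg_add_inst hI, chg_neg, chg_neg, neg_add]
  rw [h1, add_assoc, add_neg_cancel, add_zero]

theorem CF_ch2 (hI : CF (fine g) x0 i I) (y : (Fin a × Fin m → B) × (Fin a × Fin m → B)) :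
    CF (fine g) x0 i (I + ch2 g x0 i u r r' y I) :=
  CF_add hI _ ch2_ne

end chg

/-- E6a, from the bound for the classes. -/
theorem type_bound_of [Fintype B] (P : NProg B (Fin d × Fin m → B) B S) (e : B → Fin K)
    (g : Fin d → Equiv.Perm (Fin n)) (x0 : Fin n × Fin m → B)
    {T i a : ℕ} {δ : ℝ} (hδ : 0 ≤ δ) (u : Fin a → Fin n) (r r' : Fin a → Fin d × Fin m) (s p t : Fin S)
    (h5 : ∀ I : B → Fin d × Fin m → B, CF (fine g) x0 i I →
      (Nat.card {y : (Fin a × Fin m → B) × (Fin a × Fin m → B) //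
        InX P e g x0 T i u r r' s p t (I + chg g x0 i u r y.1 I + chg g x0 i u r' y.2 I)} : ℝ) ≤
      δ * Nat.card ((Fin a × Fin m → B) × (Fin a × Fin m → B))) :
    (Nat.card {I : B → Fin d × Fin m → B // InX P e g x0 T i u r r' s p t I} : ℝ) ≤
      δ * Nat.card (B → Fin d × Fin m → B) := by
  classical
  let V : Type := B → Fin d × Fin m → B
  let Y : Type := (Fin a × Fin m → B) × (Fin a × Fin m → B)
  -- pairs of an instance and a change
  let PP : Type := {p' : V × Y // CF (fine g) x0 i p'.1 ∧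
    InX P e g x0 T i u r r' s p t (p'.1 + ch2 g x0 i u r r' p'.2 p'.1)}
  have e1 : {I : V // InX P e g x0 T i u r r' s p t I} × Y ≃ PP :=
    { toFun := fun q => ⟨(q.1.1 + ch2 g x0 i u r r' (-q.2) q.1.1, q.2), CF_ch2 q.1.2.1 _, by
        have h := shift_shift_neg (u := u) (r := r) (r' := r') q.1.2.1 (-q.2)
        rw [neg_neg] at h
        show InX P e g x0 T i u r r' s p t (q.1.1 + ch2 g x0 i u r r' (-q.2) q.1.1 +
          ch2 g x0 i u r r' q.2 (q.1.1 + ch2 g x0 i u r r' (-q.2) q.1.1))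
        rw [h]
        exact q.1.2⟩
      invFun := fun q => (⟨q.1.1 + ch2 g x0 i u r r' q.1.2 q.1.1, q.2.2⟩, q.1.2)
      left_inv := by
        rintro ⟨⟨I, hI⟩, y⟩
        have h := shift_shift_neg (u := u) (r := r) (r' := r') hI.1 (-y)
        rw [neg_neg] at h
        refine Prod.ext (Subtype.ext ?_) rfl
        exact h
      right_inv := by
        rintro ⟨⟨I, y⟩, h1, h2⟩
        refine Subtype.ext (Prod.ext ?_ rfl)
        exact shift_shift_neg (u := u) (r := r) (r' := r') h1 y }
  have e2 : PP ≃ Σ I : {I : V // CF (fine g) x0 i I},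
      {y : Y // InX P e g x0 T i u r r' s p t (I.1 + ch2 g x0 i u r r' y I.1)} :=
    { toFun := fun q => ⟨⟨q.1.1, q.2.1⟩, ⟨q.1.2, q.2.2⟩⟩
      invFun := fun q => ⟨(q.1.1, q.2.1), q.1.2, q.2.2⟩
      left_inv := fun q => rfl
      right_inv := fun q => rfl }
  have h1 : Nat.card {I : V // InX P e g x0 T i u r r' s p t I} * Nat.card Y = Nat.card PP := by
    rw [← Nat.card_congr e1]
    exact (Nat.card_prod _ _).symm
  have h2 : (Nat.card PP : ℝ) ≤ δ * Nat.card Y * Nat.card V := by
    rw [Nat.card_congr e2, Nat.card_eq_fintype_card, Fintype.card_sigma]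
    push_cast
    calc ∑ I : {I : V // CF (fine g) x0 i I},
          (Fintype.card {y : Y // InX P e g x0 T i u r r' s p t (I.1 + ch2 g x0 i u r r' y I.1)} : ℝ)
        ≤ ∑ _I : {I : V // CF (fine g) x0 i I}, δ * Nat.card Y := by
          refine Finset.sum_le_sum fun I _ => ?_
          rw [← Nat.card_eq_fintype_card]
          have h6 := h5 I.1 I.2
          refine le_trans (le_of_eq ?_) h6
          have h7 : ∀ y : Y, InX P e g x0 T i u r r' s p t (I.1 + ch2 g x0 i u r r' y I.1) ↔
              InX P e g x0 T i u r r' s p t (I.1 + chg g x0 i u r y.1 I.1 + chg g x0 i u r' y.2 I.1) := by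
            intro y
            show InX P e g x0 T i u r r' s p t
              (I.1 + (chg g x0 i u r y.1 I.1 + chg g x0 i u r' y.2 I.1)) ↔ _
            rw [← add_assoc]
          exact congrArg _ (Nat.card_congr (Equiv.subtypeEquivRight h7))
      _ = δ * Nat.card Y * Fintype.card {I : V // CF (fine g) x0 i I} := by
          rw [Finset.sum_const, Finset.card_univ, nsmul_eq_mul, mul_comm]
      _ ≤ δ * Nat.card Y * Nat.card V := by
          rw [Nat.card_eq_fintype_card (α := V)]
          refine mul_le_mul_of_nonneg_left ?_ (by positivity)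
          exact_mod_cast Fintype.card_subtype_le _
  have h3 : (0 : ℝ) < Nat.card Y := by
    have : Nonempty Y := ⟨0⟩
    exact_mod_cast Nat.card_pos
  have h4 : (Nat.card {I : V // InX P e g x0 T i u r r' s p t I} : ℝ) * Nat.card Y ≤
      δ * Nat.card V * Nat.card Y := by
    rw [show δ * (Nat.card V : ℝ) * Nat.card Y = δ * Nat.card Y * Nat.card V by ring]
    refine le_trans (le_of_eq ?_) h2
    exact_mod_cast h1
  exact le_of_mul_le_mul_right h4 h3

theorem card_le_sum {X τ : Type} [Finite X] [Fintype τ] {P : X → Prop} {Q : τ → X → Prop}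
    (h : ∀ x, P x → ∃ t, Q t x) : Nat.card {x // P x} ≤ ∑ t, Nat.card {x // Q t x} := by
  classical
  have := Fintype.ofFinite X
  simp only [Nat.card_eq_fintype_card]
  rw [← Fintype.card_sigma]
  choose f hf using h
  refine Fintype.card_le_of_injective (fun x : {x // P x} =>
    (⟨f x.1 x.2, ⟨x.1, hf x.1 x.2⟩⟩ : Σ t, {x // Q t x})) ?_
  intro x x' hx
  exact Subtype.ext (congrArg (fun z : Σ t, {x // Q t x} => z.2.1) hx)

/-- E6b, from E4 and E5. -/
theorem good_bound_of [Fintype B] (P : NProg B (Fin d × Fin m → B) B S) (e : B → Fin K)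
    (g : Fin d → Equiv.Perm (Fin n)) (x0 : Fin n × Fin m → B) {R T a : ℕ} {δ : ℝ} (hδ : 0 ≤ δ)
    (h4 : ∀ I : B → Fin d × Fin m → B, CF (fine g) x0 R I → ∀ l : List B, 4 * a ≤ (full g x0 I R l).card →
      (∀ i < R, ∀ p w₁ w₂ q, l = p ++ w₁ ++ w₂ ++ q → (bad g x0 I i w₁ w₂).card < a) → 2 ^ R < l.length)
    (h5 : ∀ i < R, ∀ u : Fin a → Fin n, StrictMono u → ∀ (r r' : Fin a → Fin d × Fin m) (s p t : Fin S)
      (I : B → Fin d × Fin m → B), CF (fine g) x0 i I →
      (Nat.card {y : (Fin a × Fin m → B) × (Fin a × Fin m → B) //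
        InX P e g x0 T i u r r' s p t (I + chg g x0 i u r y.1 I + chg g x0 i u r' y.2 I)} : ℝ) ≤
      δ * Nat.card ((Fin a × Fin m → B) × (Fin a × Fin m → B))) :
    (Nat.card {I : B → Fin d × Fin m → B // CF (fine g) x0 R I ∧ ∃ l t, Best P e I P.start l t ∧
        Nat.card {c // c ∈ l} ≤ T ∧ 4 * a ≤ (full g x0 I R l).card ∧ l.length ≤ 2 ^ R} : ℝ) ≤
      R * n.choose a * ((d * m) ^ a) ^ 2 * (S : ℝ) ^ 3 * δ * Nat.card (B → Fin d × Fin m → B) := by
  classical
  let V : Type := B → Fin d × Fin m → B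
  let τ : Type := Fin R × {D : Finset (Fin n) // D.card = a} × (Fin a → Fin d × Fin m) ×
    (Fin a → Fin d × Fin m) × Fin S × Fin S × Fin S
  -- every good instance has a type
  have hty : ∀ I : V, (CF (fine g) x0 R I ∧ ∃ l t, Best P e I P.start l t ∧
      Nat.card {c // c ∈ l} ≤ T ∧ 4 * a ≤ (full g x0 I R l).card ∧ l.length ≤ 2 ^ R) →
      ∃ x : τ, InX P e g x0 T x.1 (x.2.1.1.orderEmbOfFin x.2.1.2) x.2.2.1 x.2.2.2.1 x.2.2.2.2.1
        x.2.2.2.2.2.1 x.2.2.2.2.2.2 I := by
    rintro I ⟨hI, l, t, hb, hT, hout, hlen⟩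
    by_cases hcon : ∀ i < R, ∀ p w₁ w₂ q, l = p ++ w₁ ++ w₂ ++ q → (bad g x0 I i w₁ w₂).card < a
    · exfalso
      have h := h4 I hI l hout hcon
      omega
    · push Not at hcon
      obtain ⟨i, hi, p, w₁, w₂, q, hl, hw⟩ := hcon
      obtain ⟨D, hD, hDa⟩ := Finset.exists_subset_card_eq hw
      have hl' : l = p ++ (w₁ ++ w₂) ++ q := by rw [hl]; simp only [List.append_assoc]
      subst hl'
      obtain ⟨s', t', hbw⟩ := hb.window
      obtain ⟨p', hb1, hb2⟩ := best_split hbw
      have hh : ∀ j : Fin a, (∀ v, val (fine g) x0 I (i + 1) (D.orderEmbOfFin hDa j, v) ∈ w₁ ++ w₂) ∧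
          (∃ c : Fin d × Fin m, val (fine g) x0 I i (g c.1 (D.orderEmbOfFin hDa j), c.2) ∉ w₁) ∧
          ∃ c : Fin d × Fin m, val (fine g) x0 I i (g c.1 (D.orderEmbOfFin hDa j), c.2) ∉ w₂ := by
        intro j
        have h := hD (Finset.orderEmbOfFin_mem D hDa j)
        unfold bad full comp at h
        simp only [Finset.mem_filter, Finset.mem_univ, true_and, not_forall] at h
        exact h
      choose hh1 hr hr' using hh
      choose r hr using hr
      choose r' hr' using hr'
      refine ⟨(⟨i, hi⟩, ⟨D, hDa⟩, r, r', s', p', t'), hI.mono hi.le, w₁, w₂, hb1, hb2, ?_,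
        fun j => ⟨hh1 j, hr j, hr' j⟩⟩
      refine le_trans ?_ hT
      refine Nat.card_le_card_of_injective (fun c : {c // c ∈ w₁ ++ w₂} =>
        (⟨c.1, by
          rw [List.append_assoc, List.mem_append, List.mem_append]
          exact Or.inr (Or.inl c.2)⟩ : {c // c ∈ p ++ (w₁ ++ w₂) ++ q})) ?_
      intro c c' h
      exact Subtype.ext (congrArg (fun z : {c // c ∈ p ++ (w₁ ++ w₂) ++ q} => z.1) h)
  calc (Nat.card {I : V // CF (fine g) x0 R I ∧ ∃ l t, Best P e I P.start l t ∧
        Nat.card {c // c ∈ l} ≤ T ∧ 4 * a ≤ (full g x0 I R l).card ∧ l.length ≤ 2 ^ R} : ℝ)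
      ≤ ((∑ x : τ, Nat.card {I : V //
          InX P e g x0 T x.1 (x.2.1.1.orderEmbOfFin x.2.1.2) x.2.2.1 x.2.2.2.1 x.2.2.2.2.1
            x.2.2.2.2.2.1 x.2.2.2.2.2.2 I} : ℕ) : ℝ) := by exact_mod_cast card_le_sum hty
    _ = ∑ x : τ, (Nat.card {I : V //
          InX P e g x0 T x.1 (x.2.1.1.orderEmbOfFin x.2.1.2) x.2.2.1 x.2.2.2.1 x.2.2.2.2.1
            x.2.2.2.2.2.1 x.2.2.2.2.2.2 I} : ℝ) := by push_cast; rfl
    _ ≤ ∑ _x : τ, δ * Nat.card V := by
        refine Finset.sum_le_sum fun x _ => ?_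
        exact type_bound_of P e g x0 hδ _ _ _ _ _ _ fun I hI =>
          h5 x.1 x.1.2 _ (Finset.orderEmbOfFin x.2.1.1 x.2.1.2).strictMono _ _ _ _ _ I hI
    _ = R * n.choose a * ((d * m) ^ a) ^ 2 * (S : ℝ) ^ 3 * δ * Nat.card V := by
        rw [Finset.sum_const, Finset.card_univ, nsmul_eq_mul]
        have hc : Fintype.card τ = R * (n.choose a * ((d * m) ^ a * ((d * m) ^ a * (S * (S * S))))) := by
          show Fintype.card (Fin R × {D : Finset (Fin n) // D.card = a} ×
            (Fin a → Fin d × Fin m) × (Fin a → Fin d × Fin m) × Fin S × Fin S × Fin S) = _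
          simp only [Fintype.card_prod, Fintype.card_fin, Fintype.card_fun, Fintype.card_finset_len]
        rw [hc]
        push_cast
        ring

end Pool.Agent.Helper66.NE
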